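import Pool.Agent.H934R3.NP.Stmts

set_option autoImplicit false
set_option maxHeartbeats 1000000

open MeasureTheory Set Filter Topology
open scoped ENNReal NNReal Manifold ContDiff

namespace Pool.Agent.H606NP

open Pool.Agent.H934R3.NP

/-- graph set -/
def GS (f : P2 → ℝ) : Set E := {z : E | z 2 = f (pr z)}
/-- region below the graph -/
def LS (f : P2 → ℝ) : Set E := {z : E | z 2 < f (pr z)}

lemma pr_Gr (f : P2 → ℝ) (u : P2) : pr (Gr f u) = u := by
  ext i
  fin_cases i <;> simp [pr, Gr]

lemma Gr_mem (f : P2 → ℝ) (u : P2) : Gr f u ∈ GS f := by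
  simp only [GS, mem_ofPred_eq, pr_Gr]
  simp [Gr]

lemma Gr_pr {f : P2 → ℝ} {z : E} (hz : z ∈ GS f) : Gr f (pr z) = z := by
  have h : z 2 = f (pr z) := hz
  ext i
  fin_cases i
  · simp [pr, Gr]
  · simp [pr, Gr]
  · simp only [Gr, ← h]; simp

lemma continuous_pr : Continuous pr := by
  unfold pr
  refine (PiLp.continuous_toLp 2 _).comp (continuous_pi ?_)
  intro i
  fin_cases i <;> simp <;> fun_prop

lemma continuous_Gr {f : P2 → ℝ} (hf : Continuous f) : Continuous (Gr f) := by
  unfold Gr
  refine (PiLp.continuous_toLp 2 _).comp (continuous_pi ?_)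
  intro i
  fin_cases i <;> simp <;> fun_prop

lemma isClosed_GS {f : P2 → ℝ} (hf : Continuous f) : IsClosed (GS f) := by
  refine isClosed_eq (by fun_prop) (hf.comp continuous_pr)

lemma isOpen_LS {f : P2 → ℝ} (hf : Continuous f) : IsOpen (LS f) := by
  refine isOpen_lt (by fun_prop) (hf.comp continuous_pr)

lemma continuous_grad {f : P2 → ℝ} (hf : ContDiff ℝ 1 f) : Continuous (gradient f) := by
  have h1 : Continuous (fderiv ℝ f) := hf.continuous_fderiv (by norm_num)
  have : gradient f = fun x => (InnerProductSpace.toDual ℝ P2).symm (fderiv ℝ f x) := rfl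
  rw [this]
  exact (InnerProductSpace.toDual ℝ P2).symm.continuous.comp h1

lemma intg {c : ℝ} (hc : 0 < c) (hA1 : ∀ f : P2 → ℝ, ContDiff ℝ 1 f → ∀ h : E → ℝ, Continuous h →
    HasCompactSupport h →
    ∫ z in {z : E | z 2 = f (pr z)}, h z ∂(Measure.hausdorffMeasure 2) =
      c * ∫ u : P2, h (Gr f u) * Real.sqrt (1 + ‖gradient f u‖ ^ 2))
    {f : P2 → ℝ} (hf : ContDiff ℝ 1 f) {h : E → ℝ} (hh : Continuous h)
    (hs : HasCompactSupport h) :
    IntegrableOn h (GS f) (Measure.hausdorffMeasure 2) := by
  have key : IntegrableOn (fun z => |h z|) (GS f) (Measure.hausdorffMeasure 2) := by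
    by_contra hcon
    have hk : Continuous (fun z => |h z|) := hh.abs
    have hks : HasCompactSupport (fun z => |h z|) := hs.comp_left (g := fun x : ℝ => |x|) abs_zero
    have e1 := hA1 f hf _ hk hks
    have e2 : ∫ z in {z : E | z 2 = f (pr z)}, |h z| ∂(Measure.hausdorffMeasure 2) = 0 :=
      integral_undef hcon
    rw [e2] at e1
    have e3 : ∫ u : P2, |h (Gr f u)| * Real.sqrt (1 + ‖gradient f u‖ ^ 2) = 0 := by
      rcases mul_eq_zero.mp e1.symm with h0 | h0
      · exact absurd h0 hc.ne'
      · exact h0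
    apply hcon
    have e4 : ∀ u, h (Gr f u) = 0 := by
      by_contra hne
      push Not at hne
      obtain ⟨u, hu⟩ := hne
      have hcont : Continuous (fun u : P2 => |h (Gr f u)| * Real.sqrt (1 + ‖gradient f u‖ ^ 2)) := by
        have := continuous_grad hf
        have := continuous_Gr hf.continuous
        fun_prop
      have hcs : HasCompactSupport
          (fun u : P2 => |h (Gr f u)| * Real.sqrt (1 + ‖gradient f u‖ ^ 2)) := by
        refine HasCompactSupport.intro (hs.isCompact.image continuous_pr) ?_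
        intro x hx
        have : h (Gr f x) = 0 := by
          by_contra hne'
          exact hx ⟨Gr f x, subset_tsupport _ hne', pr_Gr f x⟩
        simp [this]
      have hpos := hcont.integral_pos_of_hasCompactSupport_nonneg_nonzero (μ := volume) (x := u)
        hcs (fun x => by positivity) (by
          have : 0 < Real.sqrt (1 + ‖gradient f u‖ ^ 2) := by positivity
          exact mul_ne_zero (abs_ne_zero.mpr hu) this.ne')
      rw [e3] at hpos
      exact lt_irrefl _ hpos
    have e5 : EqOn (fun z => |h z|) (fun _ => (0:ℝ)) (GS f) := by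
      intro z hz
      have := e4 (pr z)
      rw [Gr_pr hz] at this
      simp [this]
    exact (integrableOn_zero).congr_fun e5.symm (isClosed_GS hf.continuous).measurableSet
  have hm : AEStronglyMeasurable h ((Measure.hausdorffMeasure 2).restrict (GS f)) :=
    hh.aestronglyMeasurable
  refine Integrable.mono' key hm ?_
  filter_upwards with z
  simp

/-- the surface Hausdorff measure -/
noncomputable abbrev H2 : Measure E := Measure.hausdorffMeasure 2

lemma local_id {c : ℝ} (hc : 0 < c) (hA1 : ∀ f : P2 → ℝ, ContDiff ℝ 1 f → ∀ h : E → ℝ,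
    Continuous h → HasCompactSupport h →
    ∫ z in {z : E | z 2 = f (pr z)}, h z ∂(Measure.hausdorffMeasure 2) =
      c * ∫ u : P2, h (Gr f u) * Real.sqrt (1 + ‖gradient f u‖ ^ 2))
    (hA2 : TaskA2) {g : E → ℝ} {A : E ≃ₗᵢ[ℝ] E} {f : P2 → ℝ} {U : Set E}
    (hgc : Continuous g)
    (hf : ContDiff ℝ 1 f)
    (hU : ∀ z ∈ U, (g z < 0 ↔ (A z) 2 < f (pr (A z))) ∧ (g z = 0 ↔ (A z) 2 = f (pr (A z))) ∧
      (g z = 0 → ∀ v : E, inner ℝ (nu g z) v * Real.sqrt (1 + ‖gradient f (pr (A z))‖ ^ 2) =
        (A v) 2 - fderiv ℝ f (pr (A z)) (pr (A v))))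
    {F : E → ℝ} (hF : ContDiff ℝ 1 F) (hFc : HasCompactSupport F) (hFU : tsupport F ⊆ U) (v : E) :
    IntegrableOn (fun y => F y * inner ℝ (nu g y) v) (Sg g) H2 ∧
      ∫ z in Om g, fderiv ℝ F z v = c⁻¹ * ∫ y in Sg g, F y * inner ℝ (nu g y) v ∂H2 := by
  set k : E → ℝ := fun z => F (A.symm z) *
    (((A v) 2 - fderiv ℝ f (pr z) (pr (A v))) / Real.sqrt (1 + ‖gradient f (pr z)‖ ^ 2)) with hkdef
  have hsq : ∀ u : P2, 0 < Real.sqrt (1 + ‖gradient f u‖ ^ 2) := fun u => by positivity
  have hFA : HasCompactSupport (fun z => F (A.symm z)) :=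
    hFc.comp_homeomorph A.symm.toHomeomorph
  have hFAd : ContDiff ℝ 1 (fun z => F (A.symm z)) := hF.comp A.symm.contDiff
  have hkc : Continuous k := by
    have h1 := continuous_grad hf
    have h2 := continuous_pr
    have h3 : Continuous (fderiv ℝ f) := hf.continuous_fderiv (by norm_num)
    have h4 : Continuous (fun z => fderiv ℝ f (pr z) (pr (A v))) :=
      (h3.comp h2).clm_apply continuous_const
    have h5 : Continuous (fun z => Real.sqrt (1 + ‖gradient f (pr z)‖ ^ 2)) := by
      have := h1.comp h2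
      exact (continuous_const.add (this.norm.pow 2)).sqrt
    exact hFAd.continuous.mul ((continuous_const.sub h4).div h5 (fun z => (hsq _).ne'))
  have hks : HasCompactSupport k := hFA.mul_right
  have hkint := intg hc hA1 hf hkc hks
  have hmp : MeasurePreserving (A : E → E) H2 H2 :=
    A.toIsometryEquiv.measurePreserving_hausdorffMeasure 2
  have hemb : MeasurableEmbedding (A : E → E) := A.toHomeomorph.measurableEmbedding
  have hmv : MeasurePreserving (A : E → E) volume volume := A.measurePreserving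
  have hGSm : MeasurableSet (GS f) := (isClosed_GS hf.continuous).measurableSet
  have hLSm : MeasurableSet (LS f) := (isOpen_LS hf.continuous).measurableSet
  have hSgm : MeasurableSet (Sg g) := (isClosed_eq hgc continuous_const).measurableSet
  have hOmm : MeasurableSet (Om g) := (isOpen_lt hgc continuous_const).measurableSet
  have hAm : Measurable (A : E → E) := A.continuous.measurable
  -- surface side
  have hind : (A ⁻¹' GS f).indicator (fun y => k (A y)) =
      (Sg g).indicator (fun y => F y * inner ℝ (nu g y) v) := by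
    funext y
    by_cases hy : y ∈ U
    · obtain ⟨-, h2, h3⟩ := hU y hy
      by_cases hg0 : g y = 0
      · have hyG : y ∈ A ⁻¹' GS f := h2.mp hg0
        have hyS : y ∈ Sg g := hg0
        rw [indicator_of_mem hyG, indicator_of_mem hyS]
        have h4 := h3 hg0 v
        simp only [hkdef, A.symm_apply_apply]
        rw [← h4]
        field_simp
      · have hyG : y ∉ A ⁻¹' GS f := fun h => hg0 (h2.mpr h)
        have hyS : y ∉ Sg g := hg0
        rw [indicator_of_notMem hyG, indicator_of_notMem hyS]
    · have h0 : F y = 0 := by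
        by_contra hne
        exact hy (hFU (subset_tsupport _ hne))
      have e1 : (A ⁻¹' GS f).indicator (fun y => k (A y)) y = 0 := by
        apply indicator_apply_eq_zero.mpr
        intro _
        simp [hkdef, h0]
      have e2 : (Sg g).indicator (fun y => F y * inner ℝ (nu g y) v) y = 0 := by
        apply indicator_apply_eq_zero.mpr
        intro _
        simp [h0]
      rw [e1, e2]
  have hint1 : IntegrableOn (fun y => k (A y)) (A ⁻¹' GS f) H2 := by
    have := (hmp.integrableOn_comp_preimage hemb (f := k) (s := GS f)).mpr hkint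
    exact this
  have hint2 : IntegrableOn (fun y => F y * inner ℝ (nu g y) v) (Sg g) H2 := by
    rw [← integrable_indicator_iff hSgm, ← hind, integrable_indicator_iff (hAm hGSm)]
    exact hint1
  refine ⟨hint2, ?_⟩
  have e1 : ∫ y in Sg g, F y * inner ℝ (nu g y) v ∂H2 = ∫ z in GS f, k z ∂H2 := by
    rw [← hmp.setIntegral_preimage_emb hemb k (GS f), ← integral_indicator hSgm,
      ← integral_indicator (hAm hGSm), hind]
  have e2 : ∫ z in GS f, k z ∂H2 = c * ∫ u : P2, F (A.symm (Gr f u)) *
      ((A v) 2 - fderiv ℝ f u (pr (A v))) := by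
    have := hA1 f hf k hkc hks
    rw [show (∫ z in GS f, k z ∂H2) = ∫ z in {z : E | z 2 = f (pr z)}, k z
      ∂(Measure.hausdorffMeasure 2) from rfl, this]
    congr 2
    funext u
    simp only [hkdef, pr_Gr]
    have := (hsq u).ne'
    field_simp
  have e3 := hA2 f hf (fun z => F (A.symm z)) hFAd hFA (A v)
  have e4 : ∀ z, fderiv ℝ (fun z => F (A.symm z)) z (A v) = fderiv ℝ F (A.symm z) v := by
    intro z
    have h1 : HasFDerivAt F (fderiv ℝ F (A.symm z)) (A.symm z) :=
      ((hF.differentiable (by norm_num)) _).hasFDerivAt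
    have h2 : HasFDerivAt (fun z => A.symm z) (A.symm : E →L[ℝ] E) z :=
      (A.symm : E ≃L[ℝ] E).hasFDerivAt
    have h3 := (h1.comp z h2).fderiv
    have h4 : (F ∘ fun z => A.symm z) = fun z => F (A.symm z) := rfl
    rw [h4] at h3
    rw [h3]
    simp
  have e5 : ∫ z in LS f, fderiv ℝ F (A.symm z) v = ∫ z in Om g, fderiv ℝ F z v := by
    rw [← hmv.setIntegral_preimage_emb hemb (fun z => fderiv ℝ F (A.symm z) v) (LS f),
      ← integral_indicator hOmm, ← integral_indicator (hAm hLSm)]
    congr 1
    funext y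
    by_cases hy : y ∈ U
    · obtain ⟨h1, -, -⟩ := hU y hy
      by_cases hg0 : g y < 0
      · have hyG : y ∈ A ⁻¹' LS f := h1.mp hg0
        have hyS : y ∈ Om g := hg0
        rw [indicator_of_mem hyG, indicator_of_mem hyS, A.symm_apply_apply]
      · have hyG : y ∉ A ⁻¹' LS f := fun h => hg0 (h1.mpr h)
        have hyS : y ∉ Om g := hg0
        rw [indicator_of_notMem hyG, indicator_of_notMem hyS]
    · have h0 : fderiv ℝ F y = 0 := by
        by_contra hne
        exact hy (hFU (support_fderiv_subset ℝ hne))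
      have e1 : (A ⁻¹' LS f).indicator (fun y => fderiv ℝ F (A.symm (A y)) v) y = 0 := by
        apply indicator_apply_eq_zero.mpr
        intro _
        simp [h0]
      have e2 : (Om g).indicator (fun y => fderiv ℝ F y v) y = 0 := by
        apply indicator_apply_eq_zero.mpr
        intro _
        simp [h0]
      rw [e1, e2]
  have e6 : ∫ z in LS f, fderiv ℝ F (A.symm z) v =
      ∫ u : P2, F (A.symm (Gr f u)) * ((A v) 2 - fderiv ℝ f u (pr (A v))) := by
    rw [← e3]
    show _ = ∫ z in LS f, _
    congr 1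
    funext z
    exact (e4 z).symm
  rw [e1, e2, ← e5, e6, ← mul_assoc, inv_mul_cancel₀ hc.ne', one_mul]

lemma off_id {g : E → ℝ} (hgc : Continuous g) {F : E → ℝ} (hF : ContDiff ℝ 1 F)
    (hFc : HasCompactSupport F) (hd : tsupport F ⊆ (Sg g)ᶜ) (v : E) (c : ℝ) :
    IntegrableOn (fun y => F y * inner ℝ (nu g y) v) (Sg g) H2 ∧
      ∫ z in Om g, fderiv ℝ F z v = c * ∫ y in Sg g, F y * inner ℝ (nu g y) v ∂H2 := by
  have hSgm : MeasurableSet (Sg g) := (isClosed_eq hgc continuous_const).measurableSet
  have hOmm : MeasurableSet (Om g) := (isOpen_lt hgc continuous_const).measurableSet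
  have h0 : EqOn (fun y => F y * inner ℝ (nu g y) v) (fun _ => (0:ℝ)) (Sg g) := by
    intro y hy
    have : F y = 0 := by
      by_contra hne
      exact hd (subset_tsupport _ hne) hy
    simp [this]
  refine ⟨integrableOn_zero.congr_fun h0.symm hSgm, ?_⟩
  rw [setIntegral_congr_fun hSgm h0]
  simp only [integral_zero, mul_zero]
  -- the extended function
  set K : E → ℝ := (Om g).indicator F with hK
  have hloc : ∀ z, (g z < 0 → K =ᶠ[𝓝 z] F) ∧ (0 ≤ g z → K =ᶠ[𝓝 z] fun _ => (0:ℝ)) := by
    intro z
    constructor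
    · intro hz
      have : ∀ᶠ w in 𝓝 z, g w < 0 := (isOpen_lt hgc continuous_const).mem_nhds hz
      filter_upwards [this] with w hw
      exact indicator_of_mem (show w ∈ Om g from hw) F
    · intro hz
      rcases hz.lt_or_eq with hz | hz
      · have : ∀ᶠ w in 𝓝 z, 0 < g w := (isOpen_lt continuous_const hgc).mem_nhds hz
        filter_upwards [this] with w hw
        exact indicator_of_notMem (show w ∉ Om g from not_lt.mpr hw.le) F
      · have hzn : z ∉ tsupport F := fun h => hd h hz.symm
        have : ∀ᶠ w in 𝓝 z, w ∉ tsupport F := (isClosed_tsupport F).isOpen_compl.mem_nhds hzn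
        filter_upwards [this] with w hw
        have h1 : F w = 0 := by
          by_contra hne
          exact hw (subset_tsupport _ hne)
        exact indicator_apply_eq_zero.mpr (fun _ => h1)
  have hKd : ContDiff ℝ 1 K := by
    rw [contDiff_iff_contDiffAt]
    intro z
    rcases lt_or_ge (g z) 0 with hz | hz
    · exact (hF.contDiffAt).congr_of_eventuallyEq ((hloc z).1 hz)
    · exact (contDiffAt_const).congr_of_eventuallyEq ((hloc z).2 hz)
  have hKc : HasCompactSupport K := by
    refine HasCompactSupport.intro hFc.isCompact ?_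
    intro x hx
    have h1 : F x = 0 := by
      by_contra hne
      exact hx (subset_tsupport _ hne)
    exact indicator_apply_eq_zero.mpr (fun _ => h1)
  have e1 : (Om g).indicator (fun z => fderiv ℝ F z v) = fun z => fderiv ℝ K z v := by
    funext z
    by_cases hz : g z < 0
    · rw [indicator_of_mem (show z ∈ Om g from hz), ((hloc z).1 hz).fderiv_eq]
    · rw [indicator_of_notMem (show z ∉ Om g from hz), ((hloc z).2 (not_lt.mp hz)).fderiv_eq]
      simp
  rw [← integral_indicator hOmm, e1]
  have hKfd : Continuous (fun z => fderiv ℝ K z v) :=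
    (hKd.continuous_fderiv (by norm_num)).clm_apply continuous_const
  have hKfs : HasCompactSupport (fun z => fderiv ℝ K z v) := hKc.fderiv_apply ℝ v
  have h1 := integral_mul_fderiv_eq_neg_fderiv_mul_of_integrable (μ := (volume : Measure E))
    (f := fun _ : E => (1:ℝ)) (g := K) (v := v) (by simp)
    (by simpa using hKfd.integrable_of_hasCompactSupport hKfs)
    (by simpa using hKd.continuous.integrable_of_hasCompactSupport hKc)
    (fun x _ => differentiableAt_const _)
    (fun x _ => (hKd.differentiable (by norm_num)) x)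
  simpa using h1

theorem t : TaskA4 := by
  rintro ⟨c, hc, hA1⟩ hA2 hA3
  refine ⟨c⁻¹, inv_pos.mpr hc, ?_⟩
  intro g hg F0 hF0 v
  have hgc : Continuous g := hg.smooth.continuous
  have hSgm : MeasurableSet (Sg g) := (isClosed_eq hgc continuous_const).measurableSet
  have hOmm : MeasurableSet (Om g) := (isOpen_lt hgc continuous_const).measurableSet
  obtain ⟨R, hR⟩ := hg.pos
  -- cutoff
  let b : ContDiffBump (0 : E) := ⟨max R 0 + 1, max R 0 + 2, by positivity, by linarith⟩
  set F : E → ℝ := fun z => b z * F0 z with hFdef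
  have hF : ContDiff ℝ 1 F := b.contDiff.mul hF0
  have hFc : HasCompactSupport F := b.hasCompactSupport.mul_right
  have hin : ∀ z, g z ≤ 0 → z ∈ Metric.ball (0 : E) (max R 0 + 1) := by
    intro z hz
    rw [mem_ball_zero_iff]
    by_contra hcon
    push Not at hcon
    have := hR z (by linarith [le_max_left R 0])
    linarith
  have hb1 : ∀ z, g z ≤ 0 → F =ᶠ[𝓝 z] F0 := by
    intro z hz
    filter_upwards [Metric.isOpen_ball.mem_nhds (hin z hz)] with w hw
    have : b w = 1 := b.one_of_mem_closedBall (Metric.ball_subset_closedBall hw)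
    simp [hFdef, this]
  have e1 : ∫ z in Om g, fderiv ℝ F0 z v = ∫ z in Om g, fderiv ℝ F z v := by
    apply setIntegral_congr_fun hOmm
    intro z hz
    have hz' : g z < 0 := hz
    simp only [(hb1 z hz'.le).fderiv_eq]
  have e2 : ∫ y in Sg g, F0 y * inner ℝ (nu g y) v ∂H2 =
      ∫ y in Sg g, F y * inner ℝ (nu g y) v ∂H2 := by
    apply setIntegral_congr_fun hSgm
    intro z hz
    have hz' : g z = 0 := hz
    simp only [(hb1 z hz'.le).eq_of_nhds]
  rw [e1, e2]
  -- the cover
  choose! A f U hf hUo hpU hU using hA3 g hg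
  let V : Option (Sg g) → Set E := fun o => o.elim ((Sg g)ᶜ) (fun p => U p.1)
  have hVo : ∀ o, IsOpen (V o) := by
    intro o
    cases o with
    | none => exact (isClosed_eq hgc continuous_const).isOpen_compl
    | some p => exact hUo p.1 p.2
  have hVc : (univ : Set E) ⊆ ⋃ o, V o := by
    intro z _
    by_cases hz : z ∈ Sg g
    · exact mem_iUnion.mpr ⟨some ⟨z, hz⟩, hpU z hz⟩
    · exact mem_iUnion.mpr ⟨none, hz⟩
  obtain ⟨ρ, hρ⟩ := SmoothPartitionOfUnity.exists_isSubordinate (I := 𝓘(ℝ, E)) isClosed_univ V hVo hVc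
  have hρd : ∀ o, ContDiff ℝ 1 (fun z => ρ o z) := by
    intro o
    have := (ρ o).contMDiff.contDiff
    exact this.of_le (by exact_mod_cast le_top)
  have hpiece : ∀ o, IntegrableOn (fun y => (ρ o y * F y) * inner ℝ (nu g y) v) (Sg g) H2 ∧
      ∫ z in Om g, fderiv ℝ (fun z => ρ o z * F z) z v =
        c⁻¹ * ∫ y in Sg g, (ρ o y * F y) * inner ℝ (nu g y) v ∂H2 := by
    intro o
    have hd1 : ContDiff ℝ 1 (fun z => ρ o z * F z) := (hρd o).mul hF
    have hc1 : HasCompactSupport (fun z => ρ o z * F z) := hFc.mul_left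
    have hs1 : tsupport (fun z => ρ o z * F z) ⊆ V o :=
      (tsupport_mul_subset_left).trans (hρ o)
    cases o with
    | none => exact off_id hgc hd1 hc1 hs1 v _
    | some p => exact local_id hc hA1 hA2 hgc (hf p.1 p.2) (hU p.1 p.2) hd1 hc1 hs1 v
  have hfin : {o | (Function.support (ρ o) ∩ tsupport F).Nonempty}.Finite :=
    ρ.locallyFinite.finite_nonempty_inter_compact hFc.isCompact
  set I0 := hfin.toFinset with hI0
  have hsum : ∀ z, F z = ∑ o ∈ I0, ρ o z * F z := by
    intro z
    by_cases hz : F z = 0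
    · simp [hz]
    · have h1 : ∑ᶠ o, ρ o z = 1 := ρ.sum_eq_one (mem_univ z)
      have h2 : ∑ᶠ o, ρ o z = ∑ o ∈ I0, ρ o z := by
        apply finsum_eq_sum_of_support_subset
        intro o ho
        rw [hI0, Finite.coe_toFinset]
        exact ⟨z, ho, subset_tsupport _ hz⟩
      rw [← Finset.sum_mul, ← h2, h1, one_mul]
  have hFsum : F = fun z => ∑ o ∈ I0, ρ o z * F z := funext hsum
  have e3 : ∀ z, fderiv ℝ F z v = ∑ o ∈ I0, fderiv ℝ (fun z => ρ o z * F z) z v := by
    intro z
    have h1 : HasFDerivAt (fun z => ∑ o ∈ I0, ρ o z * F z)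
        (∑ o ∈ I0, fderiv ℝ (fun z => ρ o z * F z) z) z := by
      apply HasFDerivAt.fun_sum
      intro o _
      exact ((((hρd o).mul hF).differentiable (by norm_num)) z).hasFDerivAt
    rw [← hFsum] at h1
    rw [h1.fderiv]
    simp
  have hint : ∀ o ∈ I0, IntegrableOn (fun z => fderiv ℝ (fun z => ρ o z * F z) z v) (Om g) := by
    intro o _
    have hd1 : ContDiff ℝ 1 (fun z => ρ o z * F z) := (hρd o).mul hF
    have hc1 : HasCompactSupport (fun z => ρ o z * F z) := hFc.mul_left
    exact (((hd1.continuous_fderiv (by norm_num)).clm_apply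
      continuous_const).integrable_of_hasCompactSupport (hc1.fderiv_apply ℝ v)).integrableOn
  calc ∫ z in Om g, fderiv ℝ F z v
      = ∫ z in Om g, ∑ o ∈ I0, fderiv ℝ (fun z => ρ o z * F z) z v := by simp only [← e3]
    _ = ∑ o ∈ I0, ∫ z in Om g, fderiv ℝ (fun z => ρ o z * F z) z v :=
        integral_finsetSum _ hint
    _ = ∑ o ∈ I0, c⁻¹ * ∫ y in Sg g, (ρ o y * F y) * inner ℝ (nu g y) v ∂H2 :=
        Finset.sum_congr rfl (fun o _ => (hpiece o).2)
    _ = c⁻¹ * ∑ o ∈ I0, ∫ y in Sg g, (ρ o y * F y) * inner ℝ (nu g y) v ∂H2 := by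
        rw [Finset.mul_sum]
    _ = c⁻¹ * ∫ y in Sg g, ∑ o ∈ I0, (ρ o y * F y) * inner ℝ (nu g y) v ∂H2 := by
        rw [integral_finsetSum _ (fun o _ => (hpiece o).1)]
    _ = c⁻¹ * ∫ y in Sg g, F y * inner ℝ (nu g y) v ∂H2 := by
        congr 2
        funext y
        rw [← Finset.sum_mul, ← hsum y]

end Pool.Agent.H606NP
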